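import Pool.Agent.H152R3.KD.Stmts

set_option autoImplicit false

open MeasureTheory

namespace Pool.Agent.H152R3.KD.CNT

theorem taskCNT : Pool.Agent.H152R3.KD.TaskCNT := by
  intro μ hμ
  have h := Measure.countable_meas_pos_of_disjoint_iUnion (μ := μ) (As := fun s : ℝ => ({s} : Set ℝ))
    (fun s => measurableSet_singleton s) (fun s t hst => by
      simpa [Function.onFun] using hst)
  simpa [pos_iff_ne_zero] using h

end Pool.Agent.H152R3.KD.CNT
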