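import Mathlib
import Pool.Agent.H607R3.PS.Stmts

set_option autoImplicit false

namespace Pool.Agent.H607R3.PS

namespace RegP

variable {T : Type} [CommRing T] {α β γ : T}

lemma emb_mul (t : T) (u : RR T α β γ) :
    (RR.emb t : RR T α β γ) * u = ⟨t * u.a, t * u.b, t * u.c⟩ := by
  ext <;> simp

lemma s_mul (u : RR T α β γ) : (RR.s : RR T α β γ) * u = ⟨γ * u.a, 0, -u.a⟩ := by
  ext <;> simp [RR.s]

/-- kernel of the projection is generated by s -/
lemma ker_s (u : RR T α β γ) (h1 : u.a + γ * u.c = 0) (h2 : u.b = 0) :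
    u = (RR.s : RR T α β γ) * (RR.emb (-u.c)) := by
  rw [s_mul]
  ext
  · simp only [RR.emb_a]; linear_combination h1
  · simp [h2]
  · simp

/-- regularity in `RR`, coordinatewise -/
lemma regR {F G H : T} (h : Reg3 F G H) :
    Reg3 (RR.emb F : RR T α β γ) (RR.emb G) (RR.emb H) := by
  refine ⟨?_, ?_, ?_⟩
  · intro a ha
    rw [emb_mul] at ha
    have h1 := congrArg RR.a ha
    have h2 := congrArg RR.b ha
    have h3 := congrArg RR.c ha
    simp only [RR.zero_a, RR.zero_b, RR.zero_c] at h1 h2 h3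
    ext
    · exact h.hF _ h1
    · exact h.hF _ h2
    · exact h.hF _ h3
  · intro a b hab
    rw [emb_mul, emb_mul] at hab
    have h1 := congrArg RR.a hab
    have h2 := congrArg RR.b hab
    have h3 := congrArg RR.c hab
    simp only at h1 h2 h3
    obtain ⟨a1, e1⟩ := h.hG _ _ h1
    obtain ⟨a2, e2⟩ := h.hG _ _ h2
    obtain ⟨a3, e3⟩ := h.hG _ _ h3
    refine ⟨⟨a1, a2, a3⟩, ?_⟩
    rw [emb_mul]
    ext
    · exact e1
    · exact e2
    · exact e3
  · intro c p q hc
    rw [emb_mul, emb_mul, emb_mul] at hc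
    have h1 := congrArg RR.a hc
    have h2 := congrArg RR.b hc
    have h3 := congrArg RR.c hc
    simp only [RR.add_a, RR.add_b, RR.add_c] at h1 h2 h3
    obtain ⟨p1, q1, e1⟩ := h.hH _ _ _ h1
    obtain ⟨p2, q2, e2⟩ := h.hH _ _ _ h2
    obtain ⟨p3, q3, e3⟩ := h.hH _ _ _ h3
    refine ⟨⟨p1, p2, p3⟩, ⟨q1, q2, q3⟩, ?_⟩
    rw [emb_mul, emb_mul]
    ext
    · exact e1
    · exact e2
    · exact e3

/-- regularity modulo s -/
lemma hF_s {F G H : T} (h : Reg3 F G H) (u r : RR T α β γ)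
    (e : (RR.emb F : RR T α β γ) * u = RR.s * r) : ∃ r' : RR T α β γ, u = RR.s * r' := by
  rw [emb_mul, s_mul] at e
  have h1 := congrArg RR.a e
  have h2 := congrArg RR.b e
  have h3 := congrArg RR.c e
  simp only at h1 h2 h3
  refine ⟨_, ker_s u ?_ ?_⟩
  · apply h.hF
    linear_combination h1 + γ * h3
  · exact h.hF _ h2

lemma hG_s {F G H : T} (h : Reg3 F G H) (u v r : RR T α β γ)
    (e : (RR.emb G : RR T α β γ) * u = RR.emb F * v + RR.s * r) :
    ∃ v' r' : RR T α β γ, u = RR.emb F * v' + RR.s * r' := by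
  rw [emb_mul, emb_mul, s_mul] at e
  have h1 := congrArg RR.a e
  have h2 := congrArg RR.b e
  have h3 := congrArg RR.c e
  simp only [RR.add_a, RR.add_b, RR.add_c] at h1 h2 h3
  obtain ⟨a1, e1⟩ := h.hG (u.a + γ * u.c) (v.a + γ * v.c) (by linear_combination h1 + γ * h3)
  obtain ⟨a2, e2⟩ := h.hG u.b v.b (by linear_combination h2)
  have hk := ker_s (u - (RR.emb F : RR T α β γ) * (⟨a1, a2, 0⟩ : RR T α β γ)) (by
    simp
    linear_combination e1) (by
    simp
    linear_combination e2)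
  exact ⟨_, _, sub_eq_iff_eq_add'.1 hk⟩

lemma hH_s {F G H : T} (h : Reg3 F G H) (u p q r : RR T α β γ)
    (e : (RR.emb H : RR T α β γ) * u = RR.emb F * p + RR.emb G * q + RR.s * r) :
    ∃ p' q' r' : RR T α β γ, u = RR.emb F * p' + RR.emb G * q' + RR.s * r' := by
  rw [emb_mul, emb_mul, emb_mul, s_mul] at e
  have h1 := congrArg RR.a e
  have h2 := congrArg RR.b e
  have h3 := congrArg RR.c e
  simp only [RR.add_a, RR.add_b, RR.add_c] at h1 h2 h3
  obtain ⟨a1, b1, e1⟩ := h.hH (u.a + γ * u.c) (p.a + γ * p.c) (q.a + γ * q.c)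
    (by linear_combination h1 + γ * h3)
  obtain ⟨a2, b2, e2⟩ := h.hH u.b p.b q.b (by linear_combination h2)
  have hk := ker_s (u - (RR.emb F : RR T α β γ) * (⟨a1, a2, 0⟩ : RR T α β γ)
    - (RR.emb G : RR T α β γ) * (⟨b1, b2, 0⟩ : RR T α β γ)) (by
    simp
    linear_combination e1) (by
    simp
    linear_combination e2)
  rw [sub_sub, sub_eq_iff_eq_add'] at hk
  exact ⟨_, _, _, hk⟩

open PowerSeries in
lemma coeff_sX_succ (r : PowerSeries (RR T α β γ)) (i : ℕ) :
    coeff (i + 1) (C (RR.s : RR T α β γ) * X * r) = RR.s * coeff i r := by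
  rw [mul_assoc, coeff_C_mul, coeff_succ_X_mul]

open PowerSeries in
lemma coeff_sX_zero (r : PowerSeries (RR T α β γ)) :
    coeff 0 (C (RR.s : RR T α β γ) * X * r) = 0 := by
  rw [mul_assoc, coeff_C_mul, coeff_zero_X_mul, mul_zero]

open PowerSeries in
/-- the quotient map -/
noncomputable abbrev qm : PowerSeries (RR T α β γ) →+* RP T α β γ :=
  Ideal.Quotient.mk (Ideal.span {C (RR.s : RR T α β γ) * X} : Ideal (PowerSeries (RR T α β γ)))

open PowerSeries in
lemma qm_zero_iff (f : PowerSeries (RR T α β γ)) :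
    (qm f = 0) ↔ ∃ r, f = C (RR.s : RR T α β γ) * X * r := by
  rw [Ideal.Quotient.eq_zero_iff_mem, Ideal.mem_span_singleton]
  rfl

open PowerSeries in
lemma toRP_pow (t : T) (n : ℕ) :
    (toRP (RR.emb t : RR T α β γ) ^ n) = qm (C (RR.emb (t ^ n) : RR T α β γ)) := by
  rw [map_pow (RR.emb : T →+* RR T α β γ), map_pow, map_pow]
  rfl

open PowerSeries in
theorem regRP {F G H : T} (h : Reg3 F G H) :
    Reg3 (qm (C (RR.emb F : RR T α β γ))) (qm (C (RR.emb G))) (qm (C (RR.emb H))) := by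
  have hR : Reg3 (RR.emb F : RR T α β γ) (RR.emb G) (RR.emb H) := regR h
  refine ⟨?_, ?_, ?_⟩
  · intro a ha
    obtain ⟨f, rfl⟩ := Ideal.Quotient.mk_surjective a
    have ha' : qm (C (RR.emb F : RR T α β γ) * f) = 0 := by rw [map_mul]; exact ha
    obtain ⟨r, hr⟩ := (qm_zero_iff _).1 ha'
    have h0 : coeff 0 f = 0 := by
      apply hR.hF
      rw [← coeff_C_mul, hr, coeff_sX_zero]
    have h1 : ∀ i, ∃ t : RR T α β γ, coeff (i + 1) f = RR.s * t := by
      intro i
      refine hF_s h _ (coeff i r) ?_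
      rw [← coeff_C_mul, hr, coeff_sX_succ]
    choose t ht using h1
    refine (qm_zero_iff f).2 ⟨PowerSeries.mk t, ?_⟩
    ext1 n
    rcases n with _ | n
    · rw [coeff_sX_zero, h0]
    · rw [coeff_sX_succ, coeff_mk, ht]
  · intro a b hab
    obtain ⟨f, rfl⟩ := Ideal.Quotient.mk_surjective a
    obtain ⟨g, rfl⟩ := Ideal.Quotient.mk_surjective b
    have hab' : qm (C (RR.emb G : RR T α β γ) * f - C (RR.emb F : RR T α β γ) * g) = 0 := by
      rw [map_sub, map_mul, map_mul, sub_eq_zero]; exact hab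
    obtain ⟨r, hr⟩ := (qm_zero_iff _).1 hab'
    rw [sub_eq_iff_eq_add'] at hr
    obtain ⟨v0, h0⟩ := hR.hG (coeff 0 f) (coeff 0 g) (by
      rw [← coeff_C_mul, hr, map_add, coeff_sX_zero, add_zero, coeff_C_mul])
    have h1 : ∀ i, ∃ v t : RR T α β γ, coeff (i + 1) f = RR.emb F * v + RR.s * t := by
      intro i
      refine hG_s h _ (coeff (i + 1) g) (coeff i r) ?_
      rw [← coeff_C_mul, hr, map_add, coeff_sX_succ, coeff_C_mul]
    choose v t ht using h1
    refine ⟨qm (PowerSeries.mk (fun n => Nat.casesOn n v0 v)), ?_⟩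
    rw [← map_mul]
    rw [← sub_eq_zero]
    change qm f - qm _ = 0
    rw [← map_sub]
    refine (qm_zero_iff _).2 ⟨PowerSeries.mk t, ?_⟩
    rw [sub_eq_iff_eq_add']
    ext1 n
    rcases n with _ | n
    · rw [map_add, coeff_sX_zero, coeff_C_mul, coeff_mk, add_zero]; exact h0
    · rw [map_add, coeff_sX_succ, coeff_C_mul, coeff_mk, coeff_mk]; exact ht n
  · intro c p q hc
    obtain ⟨f, rfl⟩ := Ideal.Quotient.mk_surjective c
    obtain ⟨g, rfl⟩ := Ideal.Quotient.mk_surjective p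
    obtain ⟨k, rfl⟩ := Ideal.Quotient.mk_surjective q
    have hc' : qm (C (RR.emb H : RR T α β γ) * f - (C (RR.emb F : RR T α β γ) * g
        + C (RR.emb G : RR T α β γ) * k)) = 0 := by
      rw [map_sub, map_mul, map_add, map_mul, map_mul, sub_eq_zero]; exact hc
    obtain ⟨r, hr⟩ := (qm_zero_iff _).1 hc'
    rw [sub_eq_iff_eq_add'] at hr
    obtain ⟨v0, w0, h0⟩ := hR.hH (coeff 0 f) (coeff 0 g) (coeff 0 k) (by
      rw [← coeff_C_mul, hr, map_add, map_add, coeff_sX_zero, add_zero, coeff_C_mul, coeff_C_mul])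
    have h1 : ∀ i, ∃ v w t : RR T α β γ,
        coeff (i + 1) f = RR.emb F * v + RR.emb G * w + RR.s * t := by
      intro i
      refine hH_s h _ (coeff (i + 1) g) (coeff (i + 1) k) (coeff i r) ?_
      rw [← coeff_C_mul, hr, map_add, map_add, coeff_sX_succ, coeff_C_mul, coeff_C_mul]
    choose v w t ht using h1
    refine ⟨qm (PowerSeries.mk (fun n => Nat.casesOn n v0 v)),
      qm (PowerSeries.mk (fun n => Nat.casesOn n w0 w)), ?_⟩
    rw [← map_mul, ← map_mul, ← map_add]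
    rw [← sub_eq_zero]
    change qm f - qm _ = 0
    rw [← map_sub]
    refine (qm_zero_iff _).2 ⟨PowerSeries.mk t, ?_⟩
    rw [sub_eq_iff_eq_add']
    ext1 n
    rcases n with _ | n
    · rw [map_add, map_add, coeff_sX_zero, coeff_C_mul, coeff_C_mul, coeff_mk, coeff_mk, add_zero]
      exact h0
    · rw [map_add, map_add, coeff_sX_succ, coeff_C_mul, coeff_C_mul, coeff_mk, coeff_mk, coeff_mk]
      exact ht n

end RegP

theorem taskRegP : TaskRegP := by
  intro T _ α β γ h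
  rw [RegP.toRP_pow, RegP.toRP_pow, RegP.toRP_pow]
  exact RegP.regRP h

end Pool.Agent.H607R3.PS

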