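import Pool.Agent.H741R4.QStmts

set_option autoImplicit false

open MeasureTheory Filter Topology Set

namespace Pool.Agent.H594.DHID

/-- the integral of `g` over `[T, T+s]` -/
noncomputable def K (g : ℝ → ℝ) (T s : ℝ) : ℝ := ∫ x in T..(T + s), g x

section

variable {g : ℝ → ℝ} {C : ℝ}

theorem ii (hg : Continuous g) (a b : ℝ) : IntervalIntegrable g volume a b :=
  hg.intervalIntegrable a b

theorem K_eq (T s : ℝ) : K g T s = ∫ r in (0:ℝ)..s, g (T + r) := by
  unfold K
  rw [intervalIntegral.integral_comp_add_left (fun x => g x) T, add_zero]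

theorem K_cont (hg : Continuous g) (T : ℝ) : Continuous (K g T) := by
  unfold K
  exact (intervalIntegral.continuous_primitive (fun a b => ii hg a b) T).comp
    (continuous_const.add continuous_id)

theorem K_abs (h0 : ∀ t, 0 ≤ g t) (hC : ∀ t, g t ≤ C) (T s : ℝ) : |K g T s| ≤ C * |s| := by
  rw [K_eq]
  have := intervalIntegral.norm_integral_le_of_norm_le_const (a := 0) (b := s)
    (f := fun r => g (T + r)) (C := C) (fun x _ => by
      rw [Real.norm_eq_abs, abs_of_nonneg (h0 _)]; exact hC _)
  simpa using this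

theorem K_mono (hg : Continuous g) (h0 : ∀ t, 0 ≤ g t) (T : ℝ) : Monotone (K g T) := by
  intro s s' hs
  unfold K
  have h1 : (∫ x in T..(T + s), g x) + ∫ x in (T + s)..(T + s'), g x =
      ∫ x in T..(T + s'), g x :=
    intervalIntegral.integral_add_adjacent_intervals (ii hg _ _) (ii hg _ _)
  have h2 : 0 ≤ ∫ x in (T + s)..(T + s'), g x :=
    intervalIntegral.integral_nonneg (by linarith) (fun x _ => h0 x)
  linarith

theorem K_pt (hg : Continuous g) (h0 : ∀ t, 0 ≤ g t) (hC : ∀ t, g t ≤ C)
    (hlim : ∀ s, Tendsto (fun t => g (t + s) - g t) atBot (𝓝 0)) (s : ℝ) :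
    Tendsto (fun T => K g T s - g T * s) atBot (𝓝 0) := by
  have h1 : ∀ T, K g T s - g T * s = ∫ r in (0:ℝ)..s, (g (T + r) - g T) := by
    intro T
    rw [K_eq, intervalIntegral.integral_sub]
    · simp; ring
    · exact (hg.comp (continuous_const.add continuous_id)).intervalIntegrable _ _
    · exact continuous_const.intervalIntegrable _ _
  simp_rw [h1]
  suffices h2 : Tendsto (fun T => ∫ r in (0:ℝ)..s, (g (T + r) - g T)) atBot
      (𝓝 (∫ r in (0:ℝ)..s, (0:ℝ))) by
    rw [intervalIntegral.integral_zero] at h2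
    exact h2
  apply intervalIntegral.tendsto_integral_filter_of_dominated_convergence (fun _ => C)
  · refine Eventually.of_forall fun T => ?_
    exact ((hg.comp (continuous_const.add continuous_id)).sub
      continuous_const).aestronglyMeasurable
  · refine Eventually.of_forall fun T => Eventually.of_forall fun x _ => ?_
    rw [Real.norm_eq_abs, abs_le]
    have := h0 (T + x); have := h0 T; have := hC (T + x); have := hC T
    constructor <;> linarith
  · exact continuous_const.intervalIntegrable _ _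
  · exact Eventually.of_forall fun x _ => hlim x

theorem K_lim {μ : Measure ℝ} [IsProbabilityMeasure μ] (hg : Continuous g) (h0 : ∀ t, 0 ≤ g t)
    (hC : ∀ t, g t ≤ C) (hlim : ∀ s, Tendsto (fun t => g (t + s) - g t) atBot (𝓝 0))
    (h : ℝ → ℝ) (hhc : Continuous h) (hh : Integrable h μ) :
    Tendsto (fun T => (∫ s, K g T (h s) ∂μ) - g T * ∫ s, h s ∂μ) atBot (𝓝 0) := by
  have hKi : ∀ T, Integrable (fun s => K g T (h s)) μ := by
    intro T
    refine (hh.abs.const_mul C).mono' ((K_cont hg T).comp hhc).aestronglyMeasurable ?_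
    exact Eventually.of_forall fun s => K_abs h0 hC T (h s)
  have h1 : ∀ T, (∫ s, K g T (h s) ∂μ) - g T * ∫ s, h s ∂μ =
      ∫ s, (K g T (h s) - g T * h s) ∂μ := by
    intro T
    rw [integral_sub (hKi T) (hh.const_mul _), integral_const_mul]
  simp_rw [h1]
  have h2 : (0:ℝ) = ∫ _s, (0:ℝ) ∂μ := by simp
  rw [h2]
  apply tendsto_integral_filter_of_dominated_convergence (fun s => 2 * C * |h s|)
  · exact Eventually.of_forall fun T => (((K_cont hg T).comp hhc).sub
      (continuous_const.mul hhc)).aestronglyMeasurable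
  · refine Eventually.of_forall fun T => Eventually.of_forall fun s => ?_
    rw [Real.norm_eq_abs]
    have e1 := K_abs h0 hC T (h s)
    have e2 : |g T * h s| ≤ C * |h s| := by
      rw [abs_mul, abs_of_nonneg (h0 T)]
      exact mul_le_mul_of_nonneg_right (hC T) (abs_nonneg _)
    calc |K g T (h s) - g T * h s| ≤ |K g T (h s)| + |g T * h s| := abs_sub _ _
      _ ≤ 2 * C * |h s| := by linarith
  · exact hh.abs.const_mul _
  · exact Eventually.of_forall fun s => K_pt hg h0 hC hlim (h s)

/-- the defect -/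
noncomputable def R (μ : Measure ℝ) (g : ℝ → ℝ) (t : ℝ) : ℝ := g t - ∫ s, g (t + s) ∂μ

theorem R_cont {μ : Measure ℝ} [IsProbabilityMeasure μ] (hg : Continuous g) (h0 : ∀ t, 0 ≤ g t)
    (hC : ∀ t, g t ≤ C) : Continuous (R μ g) := by
  unfold R
  refine hg.sub ?_
  apply continuous_of_dominated (bound := fun _ => C)
  · intro t
    exact (hg.comp (continuous_const.add continuous_id)).aestronglyMeasurable
  · intro t
    refine Eventually.of_forall fun s => ?_
    rw [Real.norm_eq_abs, abs_of_nonneg (h0 _)]; exact hC _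
  · exact integrable_const _
  · exact Eventually.of_forall fun s => hg.comp (continuous_id.add continuous_const)

theorem swap {μ : Measure ℝ} [IsProbabilityMeasure μ] (hg : Continuous g) (h0 : ∀ t, 0 ≤ g t)
    (hC : ∀ t, g t ≤ C) (T : ℝ) :
    Integrable (fun s => K g T s - K g 0 s) μ ∧
    ∫ s, (K g T s - K g 0 s) ∂μ = ∫ t in T..0, R μ g t := by
  have hR : ∀ t, R μ g t = ∫ s, (g t - g (t + s)) ∂μ := by
    intro t
    have hi : Integrable (fun s => g (t + s)) μ :=
      Integrable.of_bound (hg.comp (continuous_const.add continuous_id)).aestronglyMeasurable C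
        (Eventually.of_forall fun s => by
          rw [Real.norm_eq_abs, abs_of_nonneg (h0 _)]; exact hC _)
    rw [integral_sub (integrable_const _) hi]
    simp [R]
  have hK : ∀ s, K g T s - K g 0 s = ∫ t in T..0, (g t - g (t + s)) := by
    intro s
    have hi1 : IntervalIntegrable (fun t => g (t + s)) volume T 0 :=
      (hg.comp (continuous_id.add continuous_const)).intervalIntegrable _ _
    rw [intervalIntegral.integral_sub (ii hg _ _) hi1,
      intervalIntegral.integral_comp_add_right (fun x => g x) s]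
    unfold K
    rw [intervalIntegral.integral_interval_sub_interval_comm (ii hg _ _) (ii hg _ _) (ii hg _ _)]
  have hc2 : Continuous (fun p : ℝ × ℝ => g p.1 - g (p.1 + p.2)) :=
    (hg.comp continuous_fst).sub (hg.comp (continuous_fst.add continuous_snd))
  have hint : Integrable (Function.uncurry fun (t s : ℝ) => g t - g (t + s))
      ((volume.restrict (Set.uIoc T 0)).prod μ) := by
    have : IsFiniteMeasure (volume.restrict (Set.uIoc T 0)) :=
      ⟨by rw [Measure.restrict_apply_univ, Set.uIoc]; exact measure_Ioc_lt_top⟩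
    apply Integrable.of_bound (C := C)
    · exact hc2.aestronglyMeasurable
    · refine Eventually.of_forall fun p => ?_
      show ‖g p.1 - g (p.1 + p.2)‖ ≤ C
      rw [Real.norm_eq_abs, abs_le]
      have := h0 p.1; have := h0 (p.1 + p.2); have := hC (p.1 + p.2); have := hC p.1
      constructor <;> linarith
  refine ⟨?_, ?_⟩
  · refine Integrable.of_bound ((K_cont hg T).sub (K_cont hg 0)).aestronglyMeasurable
      (C * |0 - T|) (Eventually.of_forall fun s => ?_)
    rw [hK s]
    apply intervalIntegral.norm_integral_le_of_norm_le_const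
    intro x _
    rw [Real.norm_eq_abs, abs_le]
    have := h0 x; have := h0 (x + s); have := hC (x + s); have := hC x
    constructor <;> linarith
  · simp_rw [hK, hR]
    symm
    exact intervalIntegral_integral_swap hint

theorem R_lim {μ : Measure ℝ} [IsProbabilityMeasure μ] (hg : Continuous g) (h0 : ∀ t, 0 ≤ g t)
    (hC : ∀ t, g t ≤ C) {δ : ℝ} (hδ : 0 < δ)
    (hR : ∀ t, |g t - ∫ s, g (t + s) ∂μ| ≤ C * Real.exp (-δ * |t|)) :
    ∃ I, Tendsto (fun T => ∫ t in T..0, R μ g t) atBot (𝓝 I) := by
  refine ⟨_, intervalIntegral_tendsto_integral_Iic 0 ?_ tendsto_id⟩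
  have h1 : IntegrableOn (fun t => C * Real.exp (δ * t)) (Iic 0) :=
    (integrableOn_exp_mul_Iic hδ 0).const_mul C
  refine h1.mono' (R_cont hg h0 hC).aestronglyMeasurable ?_
  rw [ae_restrict_iff' measurableSet_Iic]
  refine Eventually.of_forall fun t ht => ?_
  have := hR t
  have ht' : |t| = -t := abs_of_nonpos ht
  rw [ht'] at this
  have e : -δ * -t = δ * t := by ring
  rw [e] at this
  exact this

theorem K0_le (hg : Continuous g) (h0 : ∀ t, 0 ≤ g t) {δ : ℝ} (hδ : 0 < δ)
    (hd : ∀ t, g t ≤ C * Real.exp (-δ * t)) : ∃ B, 0 ≤ B ∧ ∀ s, K g 0 s ≤ B := by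
  have hi : IntegrableOn g (Ioi 0) := by
    have h1 : IntegrableOn (fun t => C * Real.exp (-δ * t)) (Ioi 0) :=
      (exp_neg_integrableOn_Ioi 0 hδ).const_mul C
    refine h1.mono' hg.aestronglyMeasurable ?_
    refine Eventually.of_forall fun t => ?_
    rw [Real.norm_eq_abs, abs_of_nonneg (h0 t)]
    exact hd t
  refine ⟨∫ t in Ioi 0, g t, integral_nonneg h0, fun s => ?_⟩
  by_cases hs : 0 ≤ s
  · unfold K
    rw [zero_add, intervalIntegral.integral_of_le hs]
    exact setIntegral_mono_set hi (Eventually.of_forall h0)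
      (LE.le.eventuallyLE Ioc_subset_Ioi_self)
  · have h1 := K_mono hg h0 0 (not_le.1 hs).le
    have h2 : K g 0 0 = 0 := by simp [K]
    rw [h2] at h1
    exact h1.trans (integral_nonneg h0)

end

theorem mean_top {μ : Measure ℝ} [IsProbabilityMeasure μ] (h1 : Integrable (fun s => min s 0) μ)
    (h2 : ¬ Integrable (fun s : ℝ => s) μ) (M : ℝ) :
    ∃ n : ℕ, Integrable (fun s => min s (n:ℝ)) μ ∧ M < ∫ s, min s (n:ℝ) ∂μ := by
  have hdec : ∀ (n : ℕ) (s : ℝ), min s (n:ℝ) = min s 0 + min (max s 0) n := by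
    intro n s
    have hn : (0:ℝ) ≤ n := Nat.cast_nonneg n
    rcases le_total s 0 with h | h
    · rw [min_eq_left h, max_eq_right h, min_eq_left hn, min_eq_left (h.trans hn), add_zero]
    · rw [min_eq_right h, max_eq_left h, zero_add]
  have hi2 : ∀ n : ℕ, Integrable (fun s : ℝ => min (max s 0) (n:ℝ)) μ := by
    intro n
    refine Integrable.of_bound (by fun_prop) (n:ℝ) (Eventually.of_forall fun s => ?_)
    rw [Real.norm_eq_abs, abs_of_nonneg (le_min (le_max_right _ _) (Nat.cast_nonneg n))]
    exact min_le_right _ _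
  have hi : ∀ n : ℕ, Integrable (fun s => min s (n:ℝ)) μ := by
    intro n
    have : (fun s : ℝ => min s (n:ℝ)) = fun s : ℝ => min s 0 + min (max s 0) (n:ℝ) := funext (hdec n)
    rw [this]
    exact h1.add (hi2 n)
  by_contra hcon
  push Not at hcon
  have hb : ∀ n : ℕ, ∫ s, min (max s 0) (n:ℝ) ∂μ ≤ M - ∫ s, min s 0 ∂μ := by
    intro n
    have h := hcon n (hi n)
    have h' : (fun s : ℝ => min s (n:ℝ)) = fun s : ℝ => min s 0 + min (max s 0) (n:ℝ) := funext (hdec n)
    rw [h', integral_add h1 (hi2 n)] at h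
    linarith
  apply h2
  have h3 : Integrable (fun s : ℝ => max s 0) μ := by
    refine ⟨by fun_prop, ?_⟩
    have h4 : ∫⁻ s, ‖max s 0‖ₑ ∂μ ≤ ENNReal.ofReal (M - ∫ s, min s 0 ∂μ) := by
      have h5 : ∀ s : ℝ, Tendsto (fun n : ℕ => ENNReal.ofReal (min (max s 0) (n:ℝ))) atTop
          (𝓝 ‖max s 0‖ₑ) := by
        intro s
        have h6 : ‖max s 0‖ₑ = ENNReal.ofReal (max s 0) :=
          Real.enorm_of_nonneg (le_max_right _ _)
        rw [h6]
        apply tendsto_const_nhds.congr'
        obtain ⟨N, hN⟩ := exists_nat_ge (max s 0)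
        filter_upwards [eventually_ge_atTop N] with n hn
        rw [min_eq_left (hN.trans (by exact_mod_cast hn))]
      have h7 : ∫⁻ s, ‖max s 0‖ₑ ∂μ =
          ∫⁻ s, liminf (fun n : ℕ => ENNReal.ofReal (min (max s 0) (n:ℝ))) atTop ∂μ := by
        apply lintegral_congr
        intro s
        exact (h5 s).liminf_eq.symm
      rw [h7]
      refine (lintegral_liminf_le (fun n => by fun_prop)).trans ?_
      refine (liminf_le_liminf (Eventually.of_forall fun n => ?_)).trans_eq
        (liminf_const (f := (atTop : Filter ℕ)) (ENNReal.ofReal (M - ∫ s, min s 0 ∂μ)))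
      rw [← ofReal_integral_eq_lintegral_ofReal (hi2 n) (Eventually.of_forall fun s =>
        le_min (le_max_right _ _) (Nat.cast_nonneg n))]
      exact ENNReal.ofReal_le_ofReal (hb n)
    exact lt_of_le_of_lt h4 ENNReal.ofReal_lt_top
  have h8 := h1.add h3
  refine h8.congr (Eventually.of_forall fun s => ?_)
  show min s 0 + max s 0 = s
  rw [min_add_max, add_zero]

open Pool.Agent.H741R4.Q in
theorem taskID : TaskID := by
  intro μ _ g C δ hδ hg h0 hC hd hR hmin hlim
  obtain ⟨I, hI⟩ := R_lim (μ := μ) hg h0 hC hδ hR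
  refine ⟨?_, ?_⟩
  · intro hs hm
    have hK0 : Integrable (K g 0) μ := by
      refine (hs.abs.const_mul C).mono' (K_cont hg 0).aestronglyMeasurable ?_
      exact Eventually.of_forall fun s => K_abs h0 hC 0 s
    have h1 := K_lim (μ := μ) hg h0 hC hlim (fun s => s) continuous_id hs
    have h2 : ∀ T, ∫ s, K g T s ∂μ = (∫ t in T..0, R μ g t) + ∫ s, K g 0 s ∂μ := by
      intro T
      obtain ⟨e1, e2⟩ := swap (μ := μ) hg h0 hC T
      have hKT : Integrable (K g T) μ := by
        refine (hs.abs.const_mul C).mono' (K_cont hg T).aestronglyMeasurable ?_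
        exact Eventually.of_forall fun s => K_abs h0 hC T s
      rw [integral_sub hKT hK0] at e2
      linarith
    refine ⟨(I + ∫ s, K g 0 s ∂μ) / ∫ s, s ∂μ, ?_⟩
    have h3 : Tendsto (fun T => ((∫ t in T..0, R μ g t) + ∫ s, K g 0 s ∂μ) -
        ((∫ s, K g T s ∂μ) - g T * ∫ s, s ∂μ)) atBot (𝓝 ((I + ∫ s, K g 0 s ∂μ) - 0)) :=
      (hI.add_const _).sub h1
    rw [sub_zero] at h3
    have h4 := h3.div_const (∫ s, s ∂μ)
    refine h4.congr fun T => ?_
    rw [h2 T]
    field_simp
    ring
  · intro hs
    obtain ⟨B, hB0, hB⟩ := K0_le hg h0 hδ hd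
    -- upper bound
    have key : ∀ n : ℕ, Integrable (fun s => min s (n:ℝ)) μ →
        ∀ᶠ T in atBot, g T * ∫ s, min s (n:ℝ) ∂μ ≤ I + B + 2 := by
      intro n hn
      have h1 := K_lim (μ := μ) hg h0 hC hlim (fun s => min s (n:ℝ))
        (continuous_id.min continuous_const) hn
      have h2 := h1.eventually (Ioi_mem_nhds (show (-1:ℝ) < 0 by norm_num))
      have h3 := hI.eventually (Iio_mem_nhds (show I < I + 1 by linarith))
      filter_upwards [h2, h3] with T h4 h5
      obtain ⟨e1, e2⟩ := swap (μ := μ) hg h0 hC T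
      have hKn : Integrable (fun s => K g T (min s (n:ℝ))) μ := by
        refine (hn.abs.const_mul C).mono'
          ((K_cont hg T).comp (continuous_id.min continuous_const)).aestronglyMeasurable ?_
        exact Eventually.of_forall fun s => K_abs h0 hC T _
      have h6 : ∫ s, (K g T (min s (n:ℝ)) - B) ∂μ ≤ ∫ s, (K g T s - K g 0 s) ∂μ := by
        apply integral_mono (hKn.sub (integrable_const _)) e1
        intro s
        have a1 := K_mono hg h0 T (min_le_left s (n:ℝ))
        have a2 := hB s
        show K g T (min s (n:ℝ)) - B ≤ K g T s - K g 0 s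
        linarith
      rw [integral_sub hKn (integrable_const _), e2] at h6
      simp only [integral_const, probReal_univ, smul_eq_mul, one_mul] at h6
      have h4' : -1 < (∫ s, K g T (min s (n:ℝ)) ∂μ) - g T * ∫ s, min s (n:ℝ) ∂μ := h4
      have h5' : (∫ t in T..0, R μ g t) < I + 1 := h5
      linarith
    rw [Metric.tendsto_nhds]
    intro ε hε
    obtain ⟨n, hn1, hn2⟩ := mean_top hmin hs (max 0 ((I + B + 2) / ε))
    have hpos : 0 < ∫ s, min s (n:ℝ) ∂μ := lt_of_le_of_lt (le_max_left _ _) hn2
    have h3 : (I + B + 2) / ε < ∫ s, min s (n:ℝ) ∂μ := lt_of_le_of_lt (le_max_right _ _) hn2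
    filter_upwards [key n hn1] with T hT
    rw [Real.dist_eq, sub_zero, abs_of_nonneg (h0 T)]
    rw [div_lt_iff₀ hε] at h3
    by_contra hcon
    push Not at hcon
    have h5 : ε * ∫ s, min s (n:ℝ) ∂μ ≤ g T * ∫ s, min s (n:ℝ) ∂μ :=
      mul_le_mul_of_nonneg_right hcon hpos.le
    linarith

end Pool.Agent.H594.DHID
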