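import Pool.Agent.H874R3.MQ.Stmts

set_option autoImplicit false

open Real Set MeasureTheory

namespace Pool.Agent.H594.MQCIRC

theorem norm_formula (z : ℂ) (r θ : ℝ) :
    ‖circleMap z r θ‖ ^ 2 = (‖z‖ + r) ^ 2 - 2 * ‖z‖ * r * (1 - cos (θ - Complex.arg z)) := by
  set φ := Complex.arg z with hφ
  have h1 : circleMap z r θ = Complex.exp (φ * Complex.I) *
      ((‖z‖ : ℂ) + r * Complex.exp (((θ - φ : ℝ) : ℂ) * Complex.I)) := by
    have hz : z = ‖z‖ * Complex.exp (φ * Complex.I) := (Complex.norm_mul_exp_arg_mul_I z).symm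
    unfold circleMap
    have e : Complex.exp (θ * Complex.I) = Complex.exp (φ * Complex.I) *
        Complex.exp (((θ - φ : ℝ) : ℂ) * Complex.I) := by
      rw [← Complex.exp_add]; congr 1; push_cast; ring
    rw [e]
    nth_rewrite 1 [hz]
    ring
  rw [h1, norm_mul, Complex.norm_exp_ofReal_mul_I, one_mul, Complex.sq_norm, Complex.normSq_apply]
  have hre : ((‖z‖ : ℂ) + r * Complex.exp (((θ - φ : ℝ) : ℂ) * Complex.I)).re =
      ‖z‖ + r * cos (θ - φ) := by
    rw [Complex.add_re, Complex.re_ofReal_mul, Complex.exp_ofReal_mul_I_re, Complex.ofReal_re]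
  have him : ((‖z‖ : ℂ) + r * Complex.exp (((θ - φ : ℝ) : ℂ) * Complex.I)).im =
      r * sin (θ - φ) := by
    rw [Complex.add_im, Complex.im_ofReal_mul, Complex.exp_ofReal_mul_I_im, Complex.ofReal_im,
      zero_add]
  rw [hre, him]
  have := sin_sq_add_cos_sq (θ - φ)
  linear_combination r ^ 2 * this

open Pool.Agent.H874R3.MQ in
theorem taskCirc : TaskCirc := by
  intro G z r hG hr hzr h
  set φ := Complex.arg z with hφ
  set hf : ℝ → ℝ := fun u => G ((‖z‖ + r) ^ 2 - 2 * ‖z‖ * r * (1 - cos u)) with hhf
  have hcont : Continuous hf := by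
    apply hG.comp_continuous (by fun_prop)
    intro u
    show (‖z‖ + r) ^ 2 - 2 * ‖z‖ * r * (1 - cos u) < 1
    have h1 : 0 ≤ 2 * ‖z‖ * r * (1 - cos u) := by
      have := cos_le_one u
      have := norm_nonneg z
      apply mul_nonneg (by positivity); linarith
    have h2 : (‖z‖ + r) ^ 2 < 1 := by
      have := norm_nonneg z
      nlinarith
    linarith
  have heven : ∀ u, hf (-u) = hf u := by intro u; simp only [hhf, cos_neg]
  set E : ℝ → ℂ := fun u => Complex.exp (u * Complex.I) * (hf u : ℂ) with hE
  have hEc : Continuous E := by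
    apply Continuous.mul
    · fun_prop
    · exact Complex.continuous_ofReal.comp hcont
  have hper : Function.Periodic E (2 * π) := by
    intro u
    simp only [hE]
    congr 1
    · push_cast
      rw [add_mul, Complex.exp_add, Complex.exp_two_pi_mul_I, mul_one]
    · simp only [hhf, cos_add_two_pi]
  have hEsum : ∫ u in (-π)..π, E u = 0 := by
    rw [← intervalIntegral.integral_add_adjacent_intervals (b := 0)
      (hEc.intervalIntegrable _ _) (hEc.intervalIntegrable _ _)]
    have e1 : ∫ u in (-π)..0, E u = ∫ u in (0:ℝ)..π, E (-u) := by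
      rw [intervalIntegral.integral_comp_neg, neg_zero]
    have hneg : Continuous (fun u => E (-u)) := hEc.comp continuous_neg
    rw [e1, ← intervalIntegral.integral_add
      (hneg.intervalIntegrable _ _) (hEc.intervalIntegrable _ _)]
    have e2 : ∀ u : ℝ, E (-u) + E u = ((2 * (hf u * cos u) : ℝ) : ℂ) := by
      intro u
      simp only [hE, heven]
      have : Complex.exp (((-u : ℝ) : ℂ) * Complex.I) + Complex.exp (u * Complex.I) =
          2 * Complex.cos u := by
        rw [Complex.cos]; push_cast; ring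
      rw [← add_mul, this]; push_cast; ring
    simp_rw [e2]
    rw [intervalIntegral.integral_ofReal, intervalIntegral.integral_const_mul]
    have h' : ∫ t in (0:ℝ)..π, hf t * cos t = 0 := h
    rw [h']; simp
  have hmain : (∮ ζ in C(z, r), ((G (‖ζ‖ ^ 2) : ℝ) : ℂ)) =
      ∫ θ in (0:ℝ)..(2 * π), (r * Complex.I * Complex.exp (φ * Complex.I)) * E (θ - φ) := by
    rw [circleIntegral]
    apply intervalIntegral.integral_congr
    intro θ _
    simp only [deriv_circleMap, smul_eq_mul, norm_formula, hE, hhf]
    have e : Complex.exp (θ * Complex.I) = Complex.exp (φ * Complex.I) *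
        Complex.exp (((θ - φ : ℝ) : ℂ) * Complex.I) := by
      rw [← Complex.exp_add]; congr 1; push_cast; ring
    rw [circleMap, e]
    ring
  rw [hmain, intervalIntegral.integral_const_mul,
    intervalIntegral.integral_comp_sub_right (fun u => E u) φ]
  have h3 : ∫ u in (0 - φ)..(2 * π - φ), E u = ∫ u in (-π)..π, E u := by
    have := hper.intervalIntegral_add_eq (0 - φ) (-π)
    have e1 : 0 - φ + 2 * π = 2 * π - φ := by ring
    have e2 : -π + 2 * π = π := by ring
    rw [e1, e2] at this
    exact this
  rw [h3, hEsum, mul_zero]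

end Pool.Agent.H594.MQCIRC
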