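import Pool.Agent.H181R5.NLT.Stmts

set_option autoImplicit false

namespace Pool.Agent.H594.NLT

lemma exists_r (s : ℕ) : ∃ r : ℕ, r ^ 4 ≤ s ∧ s < (r + 1) ^ 4 := by
  refine ⟨Nat.sqrt (Nat.sqrt s), ?_, ?_⟩
  · have h1 := Nat.sqrt_le' s
    have h2 := Nat.sqrt_le' (Nat.sqrt s)
    calc (Nat.sqrt (Nat.sqrt s)) ^ 4 = ((Nat.sqrt (Nat.sqrt s)) ^ 2) ^ 2 := by ring
      _ ≤ (Nat.sqrt s) ^ 2 := Nat.pow_le_pow_left h2 2
      _ ≤ s := h1
  · have h1 := Nat.lt_succ_sqrt' s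
    have h2 := Nat.lt_succ_sqrt' (Nat.sqrt s)
    calc s < (Nat.sqrt s + 1) ^ 2 := h1
      _ ≤ ((Nat.sqrt (Nat.sqrt s) + 1) ^ 2) ^ 2 := Nat.pow_le_pow_left h2 2
      _ = (Nat.sqrt (Nat.sqrt s) + 1) ^ 4 := by ring

theorem taskNum2 : Pool.Agent.H181R5.NLT.TaskNum2 := by
  intro s hs
  obtain ⟨r, hr1, hr2⟩ := exists_r s
  have hroot : (s : ℝ) ^ (1 / 4 : ℝ) ≤ (r : ℝ) + 1 := by
    have h1 : (s : ℝ) ≤ ((r : ℝ) + 1) ^ 4 := by exact_mod_cast hr2.le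
    calc (s : ℝ) ^ (1 / 4 : ℝ) ≤ (((r : ℝ) + 1) ^ 4) ^ (1 / 4 : ℝ) :=
          Real.rpow_le_rpow (by positivity) h1 (by norm_num)
      _ = (r : ℝ) + 1 := by
          rw [← Real.rpow_natCast, ← Real.rpow_mul (by positivity)]
          norm_num
  by_cases hr : r ≤ 199
  · left
    have : (r : ℝ) ≤ 199 := by exact_mod_cast hr
    linarith
  · right
    have hr200 : 200 ≤ r := by omega
    obtain ⟨m, hm⟩ : ∃ m, m = r / 12 := ⟨_, rfl⟩
    obtain ⟨g, hg⟩ : ∃ g, g = r ^ 3 / 2 := ⟨_, rfl⟩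
    have hm1 : 12 * m ≤ r := by omega
    have hm2 : r < 12 * m + 12 := by omega
    have hg1 : r ^ 3 ≤ 2 * g + 1 := by omega
    have hr3 : 200 * r ≤ r ^ 3 := by
      have : r ^ 3 = r * r * r := by ring
      rw [this]
      exact Nat.mul_le_mul_right r (hr200.trans (Nat.le_mul_of_pos_left r (by omega)))
    refine ⟨r ^ 3, 40 * r, m, ?_, ?_, ?_, ?_, ?_⟩
    · calc (r ^ 3) ^ 4 = (r ^ 4) ^ 3 := by ring
        _ ≤ s ^ 3 := Nat.pow_le_pow_left hr1 3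
    · rw [← hg]
      have h1 : (r + 1) ^ 4 ≤ 16 * r ^ 4 := by
        calc (r + 1) ^ 4 ≤ (2 * r) ^ 4 := Nat.pow_le_pow_left (by omega) 4
          _ = 16 * r ^ 4 := by ring
      have h2 : 20 * r * r ^ 3 ≤ 20 * r * (2 * g + 1) := Nat.mul_le_mul_left _ hg1
      have h3 : r ^ 4 = r * r ^ 3 := by ring
      have h4 : r * (200 * r) ≤ r * r ^ 3 := Nat.mul_le_mul_left _ hr3
      have h5 : r * 200 ≤ r * r := Nat.mul_le_mul_left _ hr200
      have h6 : g * (40 * r) + 20 * r = 20 * r * (2 * g + 1) := by ring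
      have h7 : r * (200 * r) = 200 * (r * r) := by ring
      have h8 : 20 * r * r ^ 3 = 20 * (r * r ^ 3) := by ring
      omega
    · rw [← hg]
      have h1 : (12 * m) * (12 * m) ≤ r * r := Nat.mul_le_mul hm1 hm1
      have h2 : (12 * m) * (12 * m) * (40 * r) ≤ r * r * (40 * r) := Nat.mul_le_mul_right _ h1
      have h3 : (12 * m) * (12 * m) * (40 * r) = 144 * (m ^ 2 * (40 * r)) := by ring
      have h4 : r * r * (40 * r) = 40 * r ^ 3 := by ring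
      omega
    · have h1 : r ≤ r ^ 4 := Nat.le_self_pow (by norm_num) r
      omega
    · have h1 : (r : ℝ) < 12 * m + 12 := by exact_mod_cast hm2
      have h2 : (200 : ℝ) ≤ r := by exact_mod_cast hr200
      linarith

end Pool.Agent.H594.NLT
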