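import Mathlib
import Pool.Agent.H102R3.SKS

set_option autoImplicit false
open MeasureTheory ProbabilityTheory Set

namespace Pool.H594.SK

open Pool.H102.SK

/-! ### `TInner` -/

theorem pm_sq (a : ℕ) : ((-1 : ℝ) ^ a) * ((-1 : ℝ) ^ a) = 1 := by
  rw [← mul_pow]; simp

theorem sum_lt {N : ℕ} (w : Fin N → ℝ) (hw : ∀ i, w i * w i = 1) :
    2 * ∑ p : Fin N × Fin N, (if p.1 < p.2 then w p.1 * w p.2 else 0) = (∑ i, w i) ^ 2 - N := by
  have h1 : (∑ i, w i) ^ 2 = ∑ p : Fin N × Fin N, w p.1 * w p.2 := by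
    rw [sq, Finset.sum_mul_sum, Fintype.sum_prod_type]
  have h2 : ∑ p : Fin N × Fin N, w p.1 * w p.2 =
      ∑ p : Fin N × Fin N, (if p.1 < p.2 then w p.1 * w p.2 else 0) +
      ∑ p : Fin N × Fin N, (if p.2 < p.1 then w p.2 * w p.1 else 0) +
      ∑ p : Fin N × Fin N, (if p.1 = p.2 then w p.1 * w p.2 else 0) := by
    rw [← Finset.sum_add_distrib, ← Finset.sum_add_distrib]
    refine Finset.sum_congr rfl fun p _ => ?_
    rcases lt_trichotomy p.1 p.2 with h | h | h
    · rw [if_pos h, if_neg (not_lt.2 h.le), if_neg (ne_of_lt h)]; ring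
    · rw [if_neg (by rw [h]; exact lt_irrefl _), if_neg (by rw [h]; exact lt_irrefl _), if_pos h]
      ring
    · rw [if_neg (not_lt.2 h.le), if_pos h, if_neg (ne_of_gt h)]; ring
  have h3 : ∑ p : Fin N × Fin N, (if p.2 < p.1 then w p.2 * w p.1 else 0) =
      ∑ p : Fin N × Fin N, (if p.1 < p.2 then w p.1 * w p.2 else 0) :=
    Equiv.sum_comp (Equiv.prodComm (Fin N) (Fin N))
      (fun p : Fin N × Fin N => if p.1 < p.2 then w p.1 * w p.2 else 0)
  have h4 : ∑ p : Fin N × Fin N, (if p.1 = p.2 then w p.1 * w p.2 else 0) = N := by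
    rw [Fintype.sum_prod_type]
    simp [hw]
  rw [h1, h2, h3, h4]; ring

theorem tInner : TInner := by
  intro β N hN σ τ
  have hN0 : (N : ℝ) ≠ 0 := by exact_mod_cast hN.ne'
  have hs : Real.sqrt N * Real.sqrt N = N := Real.mul_self_sqrt (Nat.cast_nonneg N)
  have hs0 : Real.sqrt N ≠ 0 := by
    intro h; rw [h] at hs; simp at hs; exact hN0 hs.symm
  set w : Fin N → ℝ := fun i => (-1 : ℝ) ^ (σ i).val * (-1 : ℝ) ^ (τ i).val with hw
  have hw1 : ∀ i, w i * w i = 1 := by
    intro i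
    have := pm_sq (σ i).val
    have h2 := pm_sq (τ i).val
    calc w i * w i = ((-1 : ℝ) ^ (σ i).val * (-1 : ℝ) ^ (σ i).val) *
        ((-1 : ℝ) ^ (τ i).val * (-1 : ℝ) ^ (τ i).val) := by simp only [hw]; ring
      _ = 1 := by rw [this, h2, one_mul]
  have h1 : ∑ p, skA β N σ p * skA β N τ p =
      β ^ 2 / N * ∑ p : Fin N × Fin N, (if p.1 < p.2 then w p.1 * w p.2 else 0) := by
    rw [Finset.mul_sum]
    refine Finset.sum_congr rfl fun p _ => ?_
    simp only [skA]
    split_ifs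
    · have : β / Real.sqrt N * (β / Real.sqrt N) = β ^ 2 / N := by
        rw [div_mul_div_comm, hs, sq]
      rw [← this]; simp only [hw]; ring
    · simp
  have h2 := sum_lt w hw1
  have h3 : ∑ p : Fin N × Fin N, (if p.1 < p.2 then w p.1 * w p.2 else 0) =
      ((∑ i, w i) ^ 2 - N) / 2 := by linarith
  have h4 : Q N σ τ = (∑ i, w i) ^ 2 / N := rfl
  rw [h1, h3, h4]
  field_simp

theorem Q_self (N : ℕ) (hN : 0 < N) (σ : Fin N → Fin 2) : Q N σ σ = N := by
  unfold Q
  have hN0 : (N : ℝ) ≠ 0 := by exact_mod_cast hN.ne'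
  simp only [pm_sq]
  simp
  field_simp

/-! ### integrability -/

theorem Ff_bound {ι V : Type} [Fintype ι] [Fintype V] [Nonempty V] (a : V → ι → ℝ) (d : V → ℝ)
    (K D : ℝ) (hK : ∀ v i, |a v i| ≤ K) (hD : ∀ v, |d v| ≤ D) (x : ι → ℝ) :
    |Ff a d x| ≤ Real.log (Fintype.card V) + (D + K * ∑ i, |x i|) := by
  set B : ℝ := D + K * ∑ i, |x i| with hB
  have hv : ∀ v, |d v + ∑ i, a v i * x i| ≤ B := by
    intro v
    refine (abs_add_le _ _).trans (add_le_add (hD v) ?_)
    refine (Finset.abs_sum_le_sum_abs _ _).trans ?_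
    rw [Finset.mul_sum]
    refine Finset.sum_le_sum fun i _ => ?_
    rw [abs_mul]
    exact mul_le_mul_of_nonneg_right (hK v i) (abs_nonneg _)
  have hcard : (1 : ℝ) ≤ Fintype.card V := by
    exact_mod_cast Fintype.card_pos
  have hlogc : 0 ≤ Real.log (Fintype.card V) := Real.log_nonneg hcard
  have hZpos : 0 < Zf a d x := Finset.sum_pos (fun v _ => Real.exp_pos _) Finset.univ_nonempty
  have hup : Zf a d x ≤ Fintype.card V * Real.exp B := by
    unfold Zf
    have : ∑ v : V, Real.exp (d v + ∑ i, a v i * x i) ≤ ∑ _v : V, Real.exp B :=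
      Finset.sum_le_sum fun v _ => Real.exp_le_exp.2 (abs_le.1 (hv v)).2
    simpa using this
  have hlo : Real.exp (-B) ≤ Zf a d x := by
    obtain ⟨v⟩ := (inferInstance : Nonempty V)
    refine le_trans (Real.exp_le_exp.2 (abs_le.1 (hv v)).1) ?_
    exact Finset.single_le_sum (f := fun v => Real.exp (d v + ∑ i, a v i * x i))
      (fun v _ => (Real.exp_pos _).le) (Finset.mem_univ v)
  unfold Ff
  rw [abs_le]
  constructor
  · have := Real.log_le_log (Real.exp_pos _) hlo
    rw [Real.log_exp] at this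
    linarith
  · have := Real.log_le_log hZpos hup
    rw [Real.log_mul (by linarith) (Real.exp_pos _).ne', Real.log_exp] at this
    exact this

theorem Ff_measurable {ι V : Type} [Fintype ι] [Fintype V] (a : V → ι → ℝ) (d : V → ℝ) :
    Measurable (Ff a d) := by
  unfold Ff Zf
  fun_prop

theorem abs_integrable {ι : Type} [Fintype ι] (i : ι) :
    Integrable (fun x : ι → ℝ => |x i|) (G ι) := by
  have h1 : Integrable (fun x : ℝ => |x|) (gaussianReal 0 1) :=
    ((memLp_id_gaussianReal 1).integrable (by norm_num)).abs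
  have mp : MeasurePreserving (Function.eval i) (G ι) (gaussianReal 0 1) :=
    measurePreserving_eval (fun _ : ι => gaussianReal 0 1) i
  exact mp.integrable_comp_of_integrable h1

theorem Ff_integrable {ι V : Type} [Fintype ι] [Fintype V] [Nonempty V] (a : V → ι → ℝ)
    (d : V → ℝ) : Integrable (Ff a d) (G ι) := by
  obtain ⟨K, hK⟩ : ∃ K : ℝ, ∀ v i, |a v i| ≤ K := by
    refine ⟨∑ v, ∑ i, |a v i|, fun v i => ?_⟩
    refine le_trans ?_ (Finset.single_le_sum (f := fun v => ∑ i, |a v i|)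
      (fun v _ => Finset.sum_nonneg fun i _ => abs_nonneg _) (Finset.mem_univ v))
    exact Finset.single_le_sum (f := fun i => |a v i|) (fun i _ => abs_nonneg _)
      (Finset.mem_univ i)
  obtain ⟨D, hD⟩ : ∃ D : ℝ, ∀ v, |d v| ≤ D :=
    ⟨∑ v, |d v|, fun v => Finset.single_le_sum (f := fun v => |d v|)
      (fun v _ => abs_nonneg _) (Finset.mem_univ v)⟩
  have hi : Integrable (fun x : ι → ℝ => Real.log (Fintype.card V) + (D + K * ∑ i, |x i|))
      (G ι) := by
    refine (integrable_const _).add ((integrable_const _).add (Integrable.const_mul ?_ K))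
    exact integrable_finsetSum _ fun i _ => abs_integrable i
  refine hi.mono' (Ff_measurable a d).aestronglyMeasurable ?_
  refine Filter.Eventually.of_forall fun x => ?_
  rw [Real.norm_eq_abs]
  exact Ff_bound a d K D hK hD x

/-! ### `TGT` -/

theorem integral_inj {ι κ : Type} [Fintype ι] [Fintype κ] (f : κ → ι) (hf : Function.Injective f)
    (g : (κ → ℝ) → ℝ) (hg : Measurable g) :
    ∫ x, g (fun k => x (f k)) ∂(G ι) = ∫ y, g y ∂(G κ) := by
  have mp := mp_comp f hf
  rw [← mp.map_eq, integral_map mp.measurable.aemeasurable hg.aestronglyMeasurable]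

/-- the interpolating vectors -/
noncomputable def bb (β : ℝ) (N M : ℕ) (s c : ℝ) (v : Fin (N + M) → Fin 2) :
    (Fin (N + M) × Fin (N + M)) ⊕ ((Fin N × Fin N) ⊕ (Fin M × Fin M)) → ℝ :=
  Sum.elim (fun p => c * skA β (N + M) v p)
    (fun q => s * Sum.elim (skA β N (fun i => v (Fin.castAdd M i)))
      (skA β M (fun i => v (Fin.natAdd N i))) q)

theorem skA_abs (β : ℝ) (N : ℕ) (hN : 0 < N) (σ : Fin N → Fin 2) (p : Fin N × Fin N) :
    |skA β N σ p| ≤ |β| := by
  unfold skA
  have hs : 1 ≤ Real.sqrt N := by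
    rw [Real.one_le_sqrt]; exact_mod_cast hN
  split_ifs
  · rw [abs_mul, abs_mul, abs_pow, abs_pow, abs_neg, abs_one, one_pow, one_pow, mul_one, mul_one,
      abs_div]
    apply div_le_of_le_mul₀ (abs_nonneg _) (abs_nonneg _)
    rw [abs_of_pos (lt_of_lt_of_le zero_lt_one hs)]
    exact le_mul_of_one_le_right (abs_nonneg _) hs
  · simp

theorem bb_abs (β : ℝ) (N M : ℕ) (hN : 0 < N) (hM : 0 < M) (s c : ℝ) (hs : |s| ≤ 1)
    (hc : |c| ≤ 1) (v : Fin (N + M) → Fin 2) (i) : |bb β N M s c v i| ≤ |β| := by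
  have key : ∀ t y : ℝ, |t| ≤ 1 → |y| ≤ |β| → |t * y| ≤ |β| := by
    intro t y ht hy
    rw [abs_mul]
    calc |t| * |y| ≤ 1 * |β| := mul_le_mul ht hy (abs_nonneg _) zero_le_one
      _ = |β| := one_mul _
  unfold bb
  rcases i with p | p | p
  · exact key _ _ hc (skA_abs β (N + M) (by omega) v p)
  · exact key _ _ hs (skA_abs β N hN (fun i => v (Fin.castAdd M i)) p)
  · exact key _ _ hs (skA_abs β M hM (fun i => v (Fin.natAdd N i)) p)

theorem bb_inner (β : ℝ) (N M : ℕ) (hN : 0 < N) (hM : 0 < M) (s c s' c' : ℝ)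
    (v w : Fin (N + M) → Fin 2) :
    ∑ i, bb β N M s c v i * bb β N M s' c' w i =
      c * c' * (β ^ 2 / 2 * (Q (N + M) v w - 1)) +
      s * s' * (β ^ 2 / 2 * (Q N (fun i => v (Fin.castAdd M i)) (fun i => w (Fin.castAdd M i)) - 1)
        + β ^ 2 / 2 * (Q M (fun i => v (Fin.natAdd N i)) (fun i => w (Fin.natAdd N i)) - 1)) := by
  rw [← tInner β (N + M) (by omega), ← tInner β N hN, ← tInner β M hM]
  rw [Fintype.sum_sum_type, Fintype.sum_sum_type]
  simp only [bb, Sum.elim_inl, Sum.elim_inr]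
  rw [Finset.mul_sum, mul_add, Finset.mul_sum, Finset.mul_sum]
  congr 1
  · exact Finset.sum_congr rfl fun p _ => by ring
  congr 1
  · exact Finset.sum_congr rfl fun p _ => by ring
  · exact Finset.sum_congr rfl fun p _ => by ring

theorem Q_le (N M : ℕ) (hN : 0 < N) (hM : 0 < M) (v w : Fin (N + M) → Fin 2) :
    Q (N + M) v w ≤ Q N (fun i => v (Fin.castAdd M i)) (fun i => w (Fin.castAdd M i)) +
      Q M (fun i => v (Fin.natAdd N i)) (fun i => w (Fin.natAdd N i)) := by
  unfold Q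
  rw [Fin.sum_univ_add]
  set a := ∑ i : Fin N, (-1 : ℝ) ^ (v (Fin.castAdd M i)).val *
    (-1 : ℝ) ^ (w (Fin.castAdd M i)).val
  set b := ∑ i : Fin M, (-1 : ℝ) ^ (v (Fin.natAdd N i)).val *
    (-1 : ℝ) ^ (w (Fin.natAdd N i)).val
  have hN' : (0 : ℝ) < N := by exact_mod_cast hN
  have hM' : (0 : ℝ) < M := by exact_mod_cast hM
  push_cast
  rw [div_add_div _ _ hN'.ne' hM'.ne', div_le_div_iff₀ (by positivity) (by positivity)]
  nlinarith [sq_nonneg (a * M - b * N)]

theorem Ff_zero (β : ℝ) (N M : ℕ)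
    (x : (Fin (N + M) × Fin (N + M)) ⊕ ((Fin N × Fin N) ⊕ (Fin M × Fin M)) → ℝ) :
    Ff (bb β N M 0 1) (fun _ => 0) x = Ff (skA β (N + M)) (fun _ => 0) (fun p => x (Sum.inl p)) := by
  unfold Ff Zf
  congr 1
  refine Finset.sum_congr rfl fun v _ => ?_
  congr 2
  rw [Fintype.sum_sum_type]
  simp [bb]

theorem Ff_one (β : ℝ) (N M : ℕ)
    (x : (Fin (N + M) × Fin (N + M)) ⊕ ((Fin N × Fin N) ⊕ (Fin M × Fin M)) → ℝ) :
    Ff (bb β N M 1 0) (fun _ => 0) x =
      Ff (skA β N) (fun _ => 0) (fun p => x (Sum.inr (Sum.inl p))) +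
      Ff (skA β M) (fun _ => 0) (fun p => x (Sum.inr (Sum.inr p))) := by
  unfold Ff
  have hpos : ∀ (L : ℕ) (y : Fin L × Fin L → ℝ), 0 < Zf (skA β L) (fun _ => 0) y := fun L y =>
    Finset.sum_pos (fun v _ => Real.exp_pos _) Finset.univ_nonempty
  rw [← Real.log_mul (hpos _ _).ne' (hpos _ _).ne']
  congr 1
  unfold Zf
  rw [Finset.sum_mul_sum, ← Fintype.sum_prod_type']
  rw [← Equiv.sum_comp (Fin.appendEquiv N M)]
  refine Finset.sum_congr rfl fun p _ => ?_
  rw [← Real.exp_add]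
  congr 1
  rw [Fintype.sum_sum_type, Fintype.sum_sum_type]
  simp [bb, Fin.appendEquiv]

theorem tGT (hT : TMono) : TGT := by
  intro β N M hN hM
  have h := hT ((Fin (N + M) × Fin (N + M)) ⊕ ((Fin N × Fin N) ⊕ (Fin M × Fin M)))
    (Fin (N + M) → Fin 2)
    (fun θ => bb β N M (Real.sin θ) (Real.cos θ)) (fun θ => bb β N M (Real.cos θ) (-Real.sin θ))
    (fun _ _ => 0) (fun _ _ => 0) |β| (Real.pi / 2) (by positivity)
    ?_ ?_ ?_ ?_ ?_ ?_ ?_
  · simp only [Real.sin_pi_div_two, Real.cos_pi_div_two, Real.sin_zero, Real.cos_zero] at h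
    simp only [Ff_zero, Ff_one] at h
    rw [integral_inj Sum.inl Sum.inl_injective _ (Ff_measurable _ _)] at h
    rw [integral_add] at h
    · rw [integral_inj (fun p => Sum.inr (Sum.inl p))
        (Sum.inr_injective.comp Sum.inl_injective) _ (Ff_measurable _ _),
        integral_inj (fun p => Sum.inr (Sum.inr p))
        (Sum.inr_injective.comp Sum.inr_injective) _ (Ff_measurable _ _)] at h
      exact h
    · exact (mp_comp (fun p => Sum.inr (Sum.inl p))
        (Sum.inr_injective.comp Sum.inl_injective)).integrable_comp_of_integrable (Ff_integrable _ _)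
    · exact (mp_comp (fun p => Sum.inr (Sum.inr p))
        (Sum.inr_injective.comp Sum.inr_injective)).integrable_comp_of_integrable (Ff_integrable _ _)
  · intro θ v i
    unfold bb
    rcases i with p | p
    · exact (Real.hasDerivAt_cos θ).mul_const _
    · exact (Real.hasDerivAt_sin θ).mul_const _
  · intro θ v
    exact hasDerivAt_const _ _
  · intro θ v i
    exact bb_abs β N M hN hM _ _ (Real.abs_sin_le_one θ) (Real.abs_cos_le_one θ) v i
  · intro θ v i
    exact bb_abs β N M hN hM _ _ (Real.abs_cos_le_one θ)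
      (by rw [abs_neg]; exact Real.abs_sin_le_one θ) v i
  · intro θ v
    simp
  · intro θ v
    simp
  · intro θ hθ v w
    rw [bb_inner β N M hN hM, bb_inner β N M hN hM, Q_self _ (by omega), Q_self _ hN, Q_self _ hM]
    have hs : 0 ≤ Real.sin θ := Real.sin_nonneg_of_mem_Icc ⟨hθ.1, by linarith [hθ.2, Real.pi_pos]⟩
    have hc : 0 ≤ Real.cos θ := Real.cos_nonneg_of_mem_Icc ⟨by linarith [hθ.1, Real.pi_pos], hθ.2⟩
    have hQ := Q_le N M hN hM v w
    have hsc : 0 ≤ Real.sin θ * Real.cos θ * (β ^ 2 / 2) := by positivity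
    have := mul_le_mul_of_nonneg_left hQ hsc
    push_cast
    nlinarith
end Pool.H594.SK
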