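import Pool.Agent.H978R3.SL.Stmts

set_option autoImplicit false

open Set Filter Topology Metric Bornology

namespace Pool.Agent.H594.SLPL2

/-- the square root of `I z` used as barrier -/
noncomputable def S (z : ℂ) : ℂ := Complex.exp (Complex.log (Complex.I * z) / 2)

theorem S_mul_self {z : ℂ} (hz : z ≠ 0) : S z * S z = Complex.I * z := by
  unfold S
  rw [← Complex.exp_add, add_halves, Complex.exp_log]
  exact mul_ne_zero Complex.I_ne_zero hz

theorem S_ne (z : ℂ) : S z ≠ 0 := Complex.exp_ne_zero _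

theorem S_re_nonneg (z : ℂ) : 0 ≤ (S z).re := by
  unfold S
  rw [Complex.exp_re]
  apply mul_nonneg (Real.exp_pos _).le
  have h1 : (Complex.log (Complex.I * z) / 2).im = Complex.arg (Complex.I * z) / 2 := by
    have : (2 : ℂ) = ((2 : ℝ) : ℂ) := by norm_num
    rw [this, Complex.div_ofReal_im, Complex.log_im]
  rw [h1]
  have h2 := Complex.neg_pi_lt_arg (Complex.I * z)
  have h3 := Complex.arg_le_pi (Complex.I * z)
  apply Real.cos_nonneg_of_neg_pi_div_two_le_of_le
  · linarith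
  · linarith

theorem S_norm_sq {z : ℂ} (hz : z ≠ 0) : ‖S z‖ ^ 2 = ‖z‖ := by
  rw [sq, ← norm_mul, S_mul_self hz, norm_mul, Complex.norm_I, one_mul]

theorem S_re_sq {z : ℂ} (hz : z ≠ 0) : (S z).re ^ 2 = (‖z‖ - z.im) / 2 := by
  have h1 : (S z * S z).re = -z.im := by rw [S_mul_self hz]; simp
  have h2 : (S z).re ^ 2 + (S z).im ^ 2 = ‖z‖ := by
    rw [← S_norm_sq hz, Complex.sq_norm, Complex.normSq_apply]; ring
  rw [Complex.mul_re] at h1
  nlinarith

theorem S_re_lower {z : ℂ} (hz : z ≠ 0) (h : 0.1 * z.im ≤ |z.re|) :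
    Real.sqrt ‖z‖ / 21 ≤ (S z).re := by
  have h0 : 0 ≤ ‖z‖ := norm_nonneg z
  have h1 : (Real.sqrt ‖z‖ / 21) ^ 2 ≤ (S z).re ^ 2 := by
    rw [S_re_sq hz, div_pow, Real.sq_sqrt h0]
    have h2 : z.im ≤ ‖z‖ * (439 / 441) := by
      by_cases hy : z.im ≤ 0
      · have : 0 ≤ ‖z‖ * (439 / 441) := by positivity
        linarith
      · push Not at hy
        apply le_of_sq_le_sq _ (by positivity)
        have h3 : ‖z‖ ^ 2 = z.re ^ 2 + z.im ^ 2 := by
          rw [Complex.sq_norm, Complex.normSq_apply]; ring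
        have h4 : (0.1 * z.im) ^ 2 ≤ z.re ^ 2 := by
          rw [← sq_abs z.re]
          exact pow_le_pow_left₀ (by positivity) h 2
        rw [mul_pow, h3]
        nlinarith
    nlinarith
  exact le_of_sq_le_sq h1 (S_re_nonneg z)

theorem S_differentiableAt {z : ℂ} (hz : z ≠ 0) (h : 0.1 * z.im ≤ |z.re|) :
    DifferentiableAt ℂ S z := by
  unfold S
  have hs : Complex.I * z ∈ Complex.slitPlane := by
    rw [Complex.mem_slitPlane_iff]
    by_cases hx : z.re = 0
    · left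
      rw [hx, abs_zero] at h
      have h1 : z.im ≤ 0 := by linarith
      have h2 : z.im ≠ 0 := by
        intro h3
        exact hz (Complex.ext hx h3)
      have h3 : z.im < 0 := lt_of_le_of_ne h1 h2
      simpa using h3
    · right
      simpa using hx
  exact ((((differentiableAt_id.const_mul Complex.I).clog hs).div_const 2)).cexp

/-- the inequality given by the maximum principle -/
theorem key {D : Set ℂ} {φ : ℂ → ℂ} {θ lam R1 : ℝ} (hD : IsOpen D) (hlam : 0 < lam)
    (hlt : lam ≤ θ) (hR1 : 0 < R1)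
    (hφ : ∀ z ∈ closure D, R1 ≤ ‖z‖ → DifferentiableAt ℂ φ z ∧ ‖φ z‖ ≤ θ)
    (hfr : ∀ z ∈ frontier D, R1 ≤ ‖z‖ → ‖φ z‖ ≤ lam)
    (hsec : ∀ z ∈ D, R1 ≤ ‖z‖ → |z.re| ≤ 0.1 * z.im → ‖φ z‖ ≤ lam)
    {η : ℝ} (hη : 0 < η) {z0 : ℂ} (hz0 : z0 ∈ D) (hz0R : R1 < ‖z0‖)
    (hz0s : 0.1 * z0.im < |z0.re|) :
    ‖φ z0‖ * Real.exp (-(Real.log (θ / lam) * (21 * Real.sqrt R1) * ((S z0)⁻¹).re)
      - η * (S z0).re) ≤ lam := by
  have hθ : 0 < θ := lt_of_lt_of_le hlam hlt
  have hlog : 0 ≤ Real.log (θ / lam) := Real.log_nonneg ((one_le_div hlam).2 hlt)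
  set K : ℝ := Real.log (θ / lam) * (21 * Real.sqrt R1) with hK
  have hK0 : 0 ≤ K := mul_nonneg hlog (by positivity)
  have hexplog : Real.exp (-Real.log (θ / lam)) = lam / θ := by
    rw [Real.exp_neg, Real.exp_log (div_pos hθ hlam), inv_div]
  -- radius
  set ρ : ℝ := (21 / η * Real.log (θ / lam)) ^ 2 + ‖z0‖ + 1 with hρ
  have hρ0 : 0 < ρ := by positivity
  have hρz : ‖z0‖ < ρ := by
    have : 0 ≤ (21 / η * Real.log (θ / lam)) ^ 2 := sq_nonneg _
    linarith
  have hρs : 21 / η * Real.log (θ / lam) ≤ Real.sqrt ρ := by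
    apply Real.le_sqrt_of_sq_le
    have : 0 ≤ ‖z0‖ := norm_nonneg _
    linarith
  set V : Set ℂ := D ∩ {w | R1 < ‖w‖} ∩ {w | 0.1 * w.im < |w.re|} with hV
  have hVo : IsOpen V := by
    apply IsOpen.inter
    · exact hD.inter (isOpen_lt continuous_const continuous_norm)
    · exact isOpen_lt (continuous_const.mul Complex.continuous_im) Complex.continuous_re.abs
  set U : Set ℂ := V ∩ ball 0 ρ with hU
  have hUo : IsOpen U := hVo.inter isOpen_ball
  have hcl : ∀ w ∈ closure U, w ∈ closure D ∧ R1 ≤ ‖w‖ ∧ 0.1 * w.im ≤ |w.re| ∧ ‖w‖ ≤ ρ := by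
    intro w hw
    refine ⟨closure_mono (fun x hx => hx.1.1.1) hw, ?_, ?_, ?_⟩
    · have : closure U ⊆ {w | R1 ≤ ‖w‖} := closure_minimal
        (fun x hx => (show R1 < ‖x‖ from hx.1.1.2).le)
        (isClosed_le continuous_const continuous_norm)
      exact this hw
    · have : closure U ⊆ {w : ℂ | 0.1 * w.im ≤ |w.re|} :=
        closure_minimal (fun x hx => (show 0.1 * x.im < |x.re| from hx.1.2).le)
        (isClosed_le (continuous_const.mul Complex.continuous_im) Complex.continuous_re.abs)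
      exact this hw
    · have : closure U ⊆ {w | ‖w‖ ≤ ρ} :=
        closure_minimal (fun x hx => le_of_lt (by simpa using hx.2))
        (isClosed_le continuous_norm continuous_const)
      exact this hw
  have hne : ∀ w : ℂ, R1 ≤ ‖w‖ → w ≠ 0 := by
    intro w hw h0
    rw [h0, norm_zero] at hw
    linarith
  -- the real part of 1 / S
  have hinv : ∀ w : ℂ, w ≠ 0 → ((S w)⁻¹).re = (S w).re / ‖w‖ := by
    intro w hw
    rw [Complex.inv_re, ← Complex.sq_norm, S_norm_sq hw]
  let Ψ : ℂ → ℂ := fun w => φ w * Complex.exp (-((K : ℂ) * (S w)⁻¹) - (η : ℂ) * S w)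
  have hΨn : ∀ w, ‖Ψ w‖ = ‖φ w‖ * Real.exp (-(K * ((S w)⁻¹).re) - η * (S w).re) := by
    intro w
    simp only [Ψ, norm_mul, Complex.norm_exp]
    congr 2
    rw [Complex.sub_re, Complex.neg_re, Complex.re_ofReal_mul, Complex.re_ofReal_mul]
  have hdiff : DiffContOnCl ℂ Ψ U := by
    apply DifferentiableOn.diffContOnCl
    intro w hw
    obtain ⟨h1, h2, h3, -⟩ := hcl w hw
    apply DifferentiableAt.differentiableWithinAt
    have hS := S_differentiableAt (hne w h2) h3
    exact (hφ w h1 h2).1.mul (((((hS.inv (S_ne w)).const_mul (K : ℂ)).neg).sub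
      (hS.const_mul (η : ℂ))).cexp)
  have hbd : ∀ w ∈ frontier U, ‖Ψ w‖ ≤ lam := by
    intro w hw
    rw [hUo.frontier_eq] at hw
    obtain ⟨hwc, hwU⟩ := hw
    obtain ⟨h1, h2, h3, h4⟩ := hcl w hwc
    have hw0 := hne w h2
    have hwpos : 0 < ‖w‖ := norm_pos_iff.2 hw0
    have hSre := S_re_nonneg w
    have hinv0 : 0 ≤ ((S w)⁻¹).re := by
      rw [hinv w hw0]; exact div_nonneg hSre hwpos.le
    rw [hΨn]
    have hsmall : Real.exp (-(K * ((S w)⁻¹).re) - η * (S w).re) ≤ 1 := by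
      rw [Real.exp_le_one_iff]
      have e1 := mul_nonneg hK0 hinv0
      have e2 := mul_nonneg hη.le hSre
      linarith
    have hcase1 : ‖φ w‖ ≤ lam →
        ‖φ w‖ * Real.exp (-(K * ((S w)⁻¹).re) - η * (S w).re) ≤ lam := by
      intro h
      calc ‖φ w‖ * Real.exp (-(K * ((S w)⁻¹).re) - η * (S w).re)
          ≤ ‖φ w‖ * 1 := mul_le_mul_of_nonneg_left hsmall (norm_nonneg _)
        _ = ‖φ w‖ := mul_one _
        _ ≤ lam := h
    have hcase2 : Real.log (θ / lam) ≤ K * ((S w)⁻¹).re + η * (S w).re →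
        ‖φ w‖ * Real.exp (-(K * ((S w)⁻¹).re) - η * (S w).re) ≤ lam := by
      intro h
      calc ‖φ w‖ * Real.exp (-(K * ((S w)⁻¹).re) - η * (S w).re)
          ≤ θ * Real.exp (-Real.log (θ / lam)) := by
            apply mul_le_mul (hφ w h1 h2).2 _ (Real.exp_pos _).le hθ.le
            apply Real.exp_le_exp.2
            linarith
        _ = lam := by rw [hexplog]; field_simp
    by_cases hwD : w ∈ D
    · by_cases hwR : R1 < ‖w‖
      · by_cases hws : 0.1 * w.im < |w.re|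
        · -- ‖w‖ = ρ
          have hwρ : ¬ ‖w‖ < ρ := by
            intro h
            exact hwU ⟨⟨⟨hwD, hwR⟩, hws⟩, by simpa using h⟩
          have hwρ' : ‖w‖ = ρ := le_antisymm h4 (not_lt.1 hwρ)
          apply hcase2
          have e1 := mul_nonneg hK0 hinv0
          have e2 := S_re_lower hw0 h3
          rw [hwρ'] at e2
          have e3 : 21 / η * Real.log (θ / lam) / 21 ≤ (S w).re := by
            refine le_trans ?_ e2
            exact div_le_div_of_nonneg_right hρs (by norm_num)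
          have e4 : η * (21 / η * Real.log (θ / lam) / 21) ≤ η * (S w).re :=
            mul_le_mul_of_nonneg_left e3 hη.le
          have e5 : η * (21 / η * Real.log (θ / lam) / 21) = Real.log (θ / lam) := by
            field_simp
          linarith
        · exact hcase1 (hsec w hwD h2 (not_lt.1 hws))
      · -- ‖w‖ = R1
        have hwR' : ‖w‖ = R1 := le_antisymm (not_lt.1 hwR) h2
        apply hcase2
        have e1 := mul_nonneg hη.le hSre
        have e2 := S_re_lower hw0 h3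
        rw [hinv w hw0]
        rw [hwR'] at e2 ⊢
        have hsR : 0 < Real.sqrt R1 := Real.sqrt_pos.2 hR1
        have hsq : Real.sqrt R1 * Real.sqrt R1 = R1 := Real.mul_self_sqrt hR1.le
        have e3 : 1 ≤ (21 * Real.sqrt R1) * ((S w).re / R1) := by
          rw [← mul_div_assoc, le_div_iff₀ hR1, one_mul]
          calc R1 = 21 * Real.sqrt R1 * (Real.sqrt R1 / 21) := by linarith
            _ ≤ 21 * Real.sqrt R1 * (S w).re := mul_le_mul_of_nonneg_left e2 (by positivity)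
        have e4 : Real.log (θ / lam) * 1 ≤
            Real.log (θ / lam) * ((21 * Real.sqrt R1) * ((S w).re / R1)) :=
          mul_le_mul_of_nonneg_left e3 hlog
        have e5 : K * ((S w).re / R1) =
            Real.log (θ / lam) * ((21 * Real.sqrt R1) * ((S w).re / R1)) := by
          rw [hK]; ring
        linarith
    · -- w ∈ frontier D
      apply hcase1
      apply hfr w _ h2
      rw [hD.frontier_eq]
      exact ⟨h1, hwD⟩
  have hUb : Bornology.IsBounded U := isBounded_ball.subset inter_subset_right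
  have hz0U : z0 ∈ U := ⟨⟨⟨hz0, hz0R⟩, hz0s⟩, by simpa using hρz⟩
  have := Complex.norm_le_of_forall_mem_frontier_norm_le hUb hdiff hbd (subset_closure hz0U)
  rwa [hΨn] at this

open Pool.Agent.H978R3.SL in
theorem taskPL2 : TaskPL2 := by
  intro D φ θ lam R1 hD hlam hlt hR1 hφ hfr hsec μ hμ
  have hθ : 0 < θ := lt_of_lt_of_le hlam hlt
  have hlog : 0 ≤ Real.log (θ / lam) := Real.log_nonneg ((one_le_div hlam).2 hlt)
  set K : ℝ := Real.log (θ / lam) * (21 * Real.sqrt R1) with hK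
  have hK0 : 0 ≤ K := mul_nonneg hlog (by positivity)
  -- the bound without `η`
  have hb : ∀ z ∈ D, R1 < ‖z‖ → 0.1 * z.im < |z.re| →
      ‖φ z‖ ≤ lam * Real.exp (K * ((S z)⁻¹).re) := by
    intro z hz hzR hzs
    have h1 : ∀ η : ℝ, 0 < η → ‖φ z‖ * Real.exp (-(K * ((S z)⁻¹).re) - η * (S z).re) ≤ lam :=
      fun η hη => key hD hlam hlt hR1 hφ hfr hsec hη hz hzR hzs
    have h2 : Tendsto (fun η : ℝ => ‖φ z‖ * Real.exp (-(K * ((S z)⁻¹).re) - η * (S z).re))
        (𝓝[>] 0) (𝓝 (‖φ z‖ * Real.exp (-(K * ((S z)⁻¹).re) - 0 * (S z).re))) := by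
      apply Tendsto.mono_left _ nhdsWithin_le_nhds
      apply Continuous.tendsto
      fun_prop
    have h3 : ‖φ z‖ * Real.exp (-(K * ((S z)⁻¹).re) - 0 * (S z).re) ≤ lam := by
      apply le_of_tendsto h2
      filter_upwards [self_mem_nhdsWithin] with η hη
      exact h1 η hη
    rw [zero_mul, sub_zero, Real.exp_neg] at h3
    have hpos := Real.exp_pos (K * ((S z)⁻¹).re)
    rwa [← div_eq_mul_inv, div_le_iff₀ hpos] at h3
  -- choice of the radius
  have hμ0 : 0 < μ := lt_trans hlam hμ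
  have hL : 0 < Real.log (μ / lam) := Real.log_pos ((one_lt_div hlam).2 hμ)
  refine ⟨(K / Real.log (μ / lam)) ^ 2 + R1 + 1, ?_⟩
  intro z hz hzR
  have hsq0 : 0 ≤ (K / Real.log (μ / lam)) ^ 2 := sq_nonneg _
  have hzR1 : R1 < ‖z‖ := by linarith
  have hz0 : z ≠ 0 := by
    intro h; rw [h, norm_zero] at hzR1; linarith
  have hzpos : 0 < ‖z‖ := norm_pos_iff.2 hz0
  by_cases hs : 0.1 * z.im < |z.re|
  · refine (hb z hz hzR1 hs).trans ?_
    have h1 : ((S z)⁻¹).re ≤ (Real.sqrt ‖z‖)⁻¹ := by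
      have hn : ‖S z‖ = Real.sqrt ‖z‖ := by
        rw [← S_norm_sq hz0, Real.sqrt_sq (norm_nonneg _)]
      calc ((S z)⁻¹).re ≤ ‖(S z)⁻¹‖ := Complex.re_le_norm _
        _ = (Real.sqrt ‖z‖)⁻¹ := by rw [norm_inv, hn]
    have h2 : K / Real.log (μ / lam) ≤ Real.sqrt ‖z‖ := by
      apply Real.le_sqrt_of_sq_le
      linarith
    have hsz : 0 < Real.sqrt ‖z‖ := Real.sqrt_pos.2 hzpos
    have h3 : K * (Real.sqrt ‖z‖)⁻¹ ≤ Real.log (μ / lam) := by
      rw [← div_eq_mul_inv, div_le_iff₀ hsz]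
      rw [div_le_iff₀ hL] at h2
      linarith
    have h4 : K * ((S z)⁻¹).re ≤ Real.log (μ / lam) :=
      (mul_le_mul_of_nonneg_left h1 hK0).trans h3
    calc lam * Real.exp (K * ((S z)⁻¹).re) ≤ lam * Real.exp (Real.log (μ / lam)) :=
          mul_le_mul_of_nonneg_left (Real.exp_le_exp.2 h4) hlam.le
      _ = μ := by rw [Real.exp_log (div_pos hμ0 hlam)]; field_simp
  · exact (hsec z hz hzR1.le (not_lt.1 hs)).trans hμ.le

end Pool.Agent.H594.SLPL2
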